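import Pool.Agent.N623.PEG.Grand

/-! Inscribed squares in one of an odd number of Jordan curves composed of locally monotone arcs,
arcs that are similar or congruent in pairs, and arbitrary (wild) arcs across which the squares on
the chords wind evenly. -/

set_option autoImplicit false

namespace Pool.Agent.Results.MP_5a3ebe_gt.WildArcs

open Classical in
/-- The signed distance of `z` to the closed curve `c` (of period `1`): the distance of `z` to the
curve if the curve winds an odd number `n` of times around `z` (there is a continuous logarithm `k`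
of `c - z` with `k 1 - k 0 = 2 π n i`), and minus the distance otherwise. -/
noncomputable def sdist (c : ℝ → ℂ) (z : ℂ) : ℝ :=
  if ∃ n : ℤ, (∃ k : ℝ → ℂ, Continuous k ∧ (∀ t, Complex.exp (k t) = c t - z) ∧
      k 1 - k 0 = n * (2 * Real.pi * Complex.I)) ∧ Odd n
  then Metric.infDist z (Set.range c) else -Metric.infDist z (Set.range c)

/-- Near the parameter `s` all chords of the curve lie in one open quarter plane: for a suitable `w`
the product of `w` with `c y - c x` has `|Im| < Re` for all `x < y` close to `s`. -/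
def Tame (c : ℝ → ℂ) (s : ℝ) : Prop := ∃ ρ > 0, ∃ w : ℂ, ∀ x y : ℝ, |x - s| < ρ → |y - s| < ρ →
  x < y → |(w * (c y - c x)).im| < (w * (c y - c x)).re

/-- The curve is locally monotone (in the sense of Stromquist) at the parameter `s`: near `s` all
chords of the curve lie in one open half plane. -/
def LocMono (c : ℝ → ℂ) (s : ℝ) : Prop := ∃ ρ > 0, ∃ w : ℂ, ∀ x y : ℝ, |x - s| < ρ → |y - s| < ρ →
  x < y → 0 < (w * (c y - c x)).re

/-- The `i`-th arc of a curve subdivided at the parameters `t 0 < t 1 < ...`. -/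
def arc (c : ℝ → ℂ) (t : ℕ → ℝ) (i : ℕ) : Set ℂ := c '' Set.Icc (t i) (t (i + 1))

/-- A similarity of the plane, of either orientation. -/
def Similarity (f : ℂ → ℂ) : Prop := ∃ u v : ℂ, u ≠ 0 ∧
  (f = (fun z => u * z + v) ∨ f = fun z => u * (starRingEnd ℂ) z + v)

/-- The arc over `[p, p']` of the curve `c`, prolonged at both ends, is mapped onto the arc over
`[q, q']` of the curve `c'`, prolonged at both ends, by a proper congruence of the plane that takes
`c p` to `c' q` and `c p'` to `c' q'`. -/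
def Moved (c c' : ℝ → ℂ) (p p' q q' : ℝ) : Prop := ∃ a b a' b' : ℝ, a < p ∧ p' < b ∧ b < a + 1 ∧
  a' < q ∧ q' < b' ∧ b' < a' + 1 ∧ ∃ u v : ℂ, ‖u‖ = 1 ∧
    (fun z => u * z + v) '' (c '' Set.Icc a b) = c' '' Set.Icc a' b' ∧ u * c p + v = c' q ∧
    u * c p' + v = c' q'

/-- The arc over `[p, p']` of the curve `c`, prolonged at both ends, is mapped onto the arc over
`[q, q']` of the curve `c'`, prolonged at both ends, by an opposite congruence of the plane that
takes `c p` to `c' q'` and `c p'` to `c' q`. -/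
def Reflected (c c' : ℝ → ℂ) (p p' q q' : ℝ) : Prop := ∃ a b a' b' : ℝ, a < p ∧ p' < b ∧
  b < a + 1 ∧ a' < q ∧ q' < b' ∧ b' < a' + 1 ∧ ∃ u v : ℂ, ‖u‖ = 1 ∧
    (fun z => u * (starRingEnd ℂ) z + v) '' (c '' Set.Icc a b) = c' '' Set.Icc a' b' ∧
    u * (starRingEnd ℂ) (c p) + v = c' q' ∧ u * (starRingEnd ℂ) (c p') + v = c' q

/-- The vertex next to `c x` of the square with the side from `c x` to `c y`, to the left of this
side for `κ = i`, to the right for `κ = -i`. -/
def V₁ (c : ℝ → ℂ) (κ : ℂ) (x y : ℝ) : ℂ := c x + κ * (c y - c x)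

/-- The vertex next to `c y` of the square with the side from `c x` to `c y`, to the left of this
side for `κ = i`, to the right for `κ = -i`. -/
def V₂ (c : ℝ → ℂ) (κ : ℂ) (x y : ℝ) : ℂ := c y + κ * (c y - c x)

/-- `τ ↦ (x τ, y τ)` is a path of chords from a short chord near the parameter `p` to a short chord
near the parameter `q`. -/
def ChordPath (x y : ℝ → ℝ) (p q ρ : ℝ) : Prop := ContinuousOn x (Set.Icc 0 1) ∧
  ContinuousOn y (Set.Icc 0 1) ∧ (∀ τ ∈ Set.Icc (0 : ℝ) 1, x τ < y τ ∧ y τ < x τ + 1) ∧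
  (|x 0 - p| < ρ ∧ |y 0 - p| < ρ) ∧ |x 1 - q| < ρ ∧ |y 1 - q| < ρ

/-- There is (for arbitrarily small `ρ`) a path of chords from short chords near `p` to short chords
near `q` on which the signed distances of the two other vertices of the squares, on one side of the
chords, are `r cos θ` and `r sin θ` with `r ≥ 0`, `θ` continuous, and with a total variation of `θ`
that differs by less than half a turn from an even number of turns. -/
def WindsEvenly (c : ℝ → ℂ) (p q : ℝ) : Prop := ∃ κ : ℂ, (κ = Complex.I ∨ κ = -Complex.I) ∧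
  ∀ ρ > 0, ∃ (x y θ r : ℝ → ℝ) (n : ℤ), ChordPath x y p q ρ ∧ ContinuousOn θ (Set.Icc 0 1) ∧
    (∀ τ ∈ Set.Icc (0 : ℝ) 1, 0 ≤ r τ ∧ sdist c (V₁ c κ (x τ) (y τ)) = r τ * Real.cos (θ τ) ∧
      sdist c (V₂ c κ (x τ) (y τ)) = r τ * Real.sin (θ τ)) ∧ Even n ∧
    |θ 1 - θ 0 - 2 * Real.pi * n| < Real.pi

/-- There is (for arbitrarily small `ρ`) a path of chords from short chords near `p` to short chords
near `q` such that the squares on one side of these chords never have both their other vertices on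
the other side of the curve, that is not on the side where such a vertex is in the beginning (one
of them may be there). -/
def OneSided (c : ℝ → ℂ) (p q : ℝ) : Prop := ∃ κ : ℂ, (κ = Complex.I ∨ κ = -Complex.I) ∧
  ∀ ρ > 0, ∃ x y : ℝ → ℝ, ChordPath x y p q ρ ∧ ∀ τ ∈ Set.Icc (0 : ℝ) 1,
    ¬ (sdist c (V₁ c κ (x 0) (y 0)) * sdist c (V₁ c κ (x τ) (y τ)) < 0 ∧
      sdist c (V₁ c κ (x 0) (y 0)) * sdist c (V₂ c κ (x τ) (y τ)) < 0)

/-- The arc over `[p, q]` turned by 90 degrees about one of its ends (to one side) meets the curve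
only in this end, and the arc turned by 45 degrees (to the other side) about its other end and
enlarged by the factor `√2` meets the curve only in this other end. -/
def Turned (c : ℝ → ℂ) (p q : ℝ) : Prop := ∃ κ : ℂ, (κ = Complex.I ∨ κ = -Complex.I) ∧
  (((∀ t ∈ Set.Ioc p q, c p + κ * (c t - c p) ∉ Set.range c) ∧
      ∀ t ∈ Set.Ico p q, c q + (1 - κ) * (c t - c q) ∉ Set.range c) ∨
    ((∀ t ∈ Set.Ioc p q, c p + (1 + κ) * (c t - c p) ∉ Set.range c) ∧
      ∀ t ∈ Set.Ico p q, c q - κ * (c t - c q) ∉ Set.range c))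

/-- Let `c 0, ..., c (N - 1)` be an odd number of Jordan curves (continuous, of period `1`, injective
on `[0, 1)`; for instance one curve), the `k`-th one cut at the parameters
`t k 0 < t k 1 < ... < t k (n k) = t k 0 + 1`, `n k ≥ 2`. Let `σ` be an involution of the set of all
the arcs `(k, i)` of all the curves. Suppose that each arc `(k, i)` is of one of the following kinds:
(1) its ends are tame and the squares on the chords wind evenly along some path of chords from short
chords at its one end to short chords at its other end, or there is such a path on which the squares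
(on one side of the chords) never have both other vertices on the other side of the curve, or the
turned arcs meet the curve only in the respective end (`Turned`); nothing else is supposed about
the arc, which can be completely irregular;
(2) its ends are tame and it is locally monotone at all its points;
(3) its ends and those of the arc `σ (k, i)` (of the same or of another curve) are tame and it is
mapped onto the arc `σ (k, i)` by a similarity which, in the case `σ (k, i) = (k, i)`, exchanges its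
ends;
(4) `σ (k, i) ≠ (k, i)` and it is mapped onto the arc `σ (k, i)` by a proper congruence which keeps
the directions of the curves and maps also some prolongation of the arc `(k, i)` at both ends onto
one of the arc `σ (k, i)`;
(5) it is mapped onto the arc `σ (k, i)` (possibly `σ (k, i) = (k, i)`) by an opposite congruence
which reverses the directions of the curves and maps also some prolongation of the arc `(k, i)` at
both ends onto one of the arc `σ (k, i)`.
Then at least one of the curves contains the four vertices of a square. -/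
theorem result (N : ℕ) (hN : Odd N) (c : Fin N → ℝ → ℂ) (hc : ∀ k, Continuous (c k))
    (hper : ∀ k s, c k (s + 1) = c k s) (hinj : ∀ k, Set.InjOn (c k) (Set.Ico 0 1))
    (n : Fin N → ℕ) (hn : ∀ k, 2 ≤ n k) (t : Fin N → ℕ → ℝ)
    (ht : ∀ k, ∀ i < n k, t k i < t k (i + 1)) (ht1 : ∀ k, t k (n k) = t k 0 + 1)
    (σ : Fin N × ℕ → Fin N × ℕ)
    (hσ : ∀ k, ∀ i < n k, (σ (k, i)).2 < n (σ (k, i)).1 ∧ σ (σ (k, i)) = (k, i))
    (H : ∀ k, ∀ i < n k,
      (Tame (c k) (t k i) ∧ Tame (c k) (t k (i + 1)) ∧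
        (WindsEvenly (c k) (t k i) (t k (i + 1)) ∨ OneSided (c k) (t k i) (t k (i + 1)) ∨
          Turned (c k) (t k i) (t k (i + 1)))) ∨
      (Tame (c k) (t k i) ∧ Tame (c k) (t k (i + 1)) ∧
        ∀ s ∈ Set.Icc (t k i) (t k (i + 1)), LocMono (c k) s) ∨
      (Tame (c k) (t k i) ∧ Tame (c k) (t k (i + 1)) ∧
        Tame (c (σ (k, i)).1) (t (σ (k, i)).1 (σ (k, i)).2) ∧
        Tame (c (σ (k, i)).1) (t (σ (k, i)).1 ((σ (k, i)).2 + 1)) ∧
        ∃ f, Similarity f ∧
          f '' arc (c k) (t k) i = arc (c (σ (k, i)).1) (t (σ (k, i)).1) (σ (k, i)).2 ∧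
          (σ (k, i) = (k, i) → f (c k (t k i)) = c k (t k (i + 1)))) ∨
      (σ (k, i) ≠ (k, i) ∧ Moved (c k) (c (σ (k, i)).1) (t k i) (t k (i + 1))
        (t (σ (k, i)).1 (σ (k, i)).2) (t (σ (k, i)).1 ((σ (k, i)).2 + 1))) ∨
      Reflected (c k) (c (σ (k, i)).1) (t k i) (t k (i + 1))
        (t (σ (k, i)).1 (σ (k, i)).2) (t (σ (k, i)).1 ((σ (k, i)).2 + 1))) :
    ∃ k, ∃ z w : ℂ, w ≠ 0 ∧ z ∈ Set.range (c k) ∧ z + w ∈ Set.range (c k) ∧
      z + w + Complex.I * w ∈ Set.range (c k) ∧ z + Complex.I * w ∈ Set.range (c k) := by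
  by_contra hno
  have L : ∀ k, Pool.Agent.H763R2.An.Loop (c k) := fun k => ⟨hc k, hper k⟩
  have J : ∀ k, Pool.Agent.H763R2.An.Inj (c k) := by
    intro k x y hxy hy he
    have e1 : c k (Int.fract x) = c k x := by
      have := (L k).per_int (Int.fract x) ⌊x⌋
      rw [Int.fract_add_floor] at this
      exact this.symm
    have e2 : c k (Int.fract y) = c k y := by
      have := (L k).per_int (Int.fract y) ⌊y⌋
      rw [Int.fract_add_floor] at this
      exact this.symm
    have e3 := hinj k ⟨Int.fract_nonneg x, Int.fract_lt_one x⟩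
      ⟨Int.fract_nonneg y, Int.fract_lt_one y⟩ (by rw [e1, e2, he])
    obtain ⟨m, hm⟩ := Int.fract_eq_fract.1 e3
    have h1 : (m : ℝ) < 0 := by linarith
    have h2 : (-1 : ℝ) < m := by linarith
    have h3 : m < 0 := by exact_mod_cast h1
    have h4 : -1 < m := by exact_mod_cast h2
    omega
  have ms : ∀ (c : ℝ → ℂ) z, sdist c z = Pool.Agent.H763R2.An.mgc c z := fun c z => rfl
  have ev : ∀ k, ∀ i < n k, (WindsEvenly (c k) (t k i) (t k (i + 1)) ∨
      OneSided (c k) (t k i) (t k (i + 1)) ∨ Turned (c k) (t k i) (t k (i + 1))) →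
      Pool.Agent.N623.PEG.EvA (c k) (t k i) (t k (i + 1)) := by
    intro k i hi h
    have hlt := ht k i hi
    have hlen : t k (i + 1) < t k i + 1 :=
      Pool.Agent.Y535.PEG.ord_len (hn k) (ht k) (ht1 k) hi
    rcases h with ⟨κ, rfl | rfl, h⟩ | ⟨κ, rfl | rfl, h⟩ | ⟨κ, rfl | rfl, ⟨h1, h2⟩ | ⟨h1, h2⟩⟩
    · left
      intro ρ hρ
      obtain ⟨x, y, θ, r, m, ⟨cx, cy, hxy, ⟨a1, a2⟩, a3, a4⟩, hθ, hpol, hm, hw⟩ := h ρ hρ
      refine ⟨fun τ => (x τ, y τ), θ, r, m, ⟨cx.prodMk cy, hxy, a1, a2, a3, a4⟩, hθ,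
        fun τ hτ => ?_, hm, hw⟩
      obtain ⟨b0, b1, b2⟩ := hpol τ hτ
      rw [Pool.Agent.W675.Peg.DD_eq, Pool.Agent.W675.Peg.CC_eq]
      exact ⟨b0, b1, b2⟩
    · right; left
      intro ρ hρ
      obtain ⟨x, y, θ, r, m, ⟨cx, cy, hxy, ⟨a1, a2⟩, a3, a4⟩, hθ, hpol, hm, hw⟩ := h ρ hρ
      refine ⟨_, fun τ => Real.pi / 2 - θ τ, r, -m,
        Pool.Agent.Y535.PEG.Pth.rev (p := fun τ => (x τ, y τ)) ⟨cx.prodMk cy, hxy, a1, a2, a3, a4⟩,
        continuousOn_const.sub hθ, fun τ hτ => ?_, hm.neg, ?_⟩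
      · obtain ⟨b0, b1, b2⟩ := hpol τ hτ
        rw [Real.cos_pi_div_two_sub, Real.sin_pi_div_two_sub, Pool.Agent.Y535.PEG.mgc_rev (L k),
          Pool.Agent.Y535.PEG.mgc_rev (L k), Pool.Agent.W675.Peg.DD_eq, Pool.Agent.W675.Peg.CC_eq]
        simp only [neg_neg]
        refine ⟨b0, ?_, ?_⟩
        · rw [← b2, ms]
          unfold V₂
          congr 1; ring
        · rw [← b1, ms]
          unfold V₁
          congr 1; ring
      · have e : Real.pi / 2 - θ 1 - (Real.pi / 2 - θ 0) - 2 * Real.pi * ((-m : ℤ) : ℝ) =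
            -(θ 1 - θ 0 - 2 * Real.pi * m) := by push_cast; ring
        simp only
        rw [e, abs_neg]
        exact hw
    · right; right; left
      intro ρ hρ
      obtain ⟨x, y, ⟨cx, cy, hxy, ⟨a1, a2⟩, a3, a4⟩, h⟩ := h ρ hρ
      refine ⟨fun τ => (x τ, y τ), _, ⟨cx.prodMk cy, hxy, a1, a2, a3, a4⟩, Or.inl rfl,
        fun τ hτ hh => h τ hτ ?_⟩
      rw [Pool.Agent.W675.Peg.DD_eq, Pool.Agent.W675.Peg.DD_eq, Pool.Agent.W675.Peg.CC_eq] at hh
      exact hh
    · right; right; right; left
      intro ρ hρ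
      obtain ⟨x, y, ⟨cx, cy, hxy, ⟨a1, a2⟩, a3, a4⟩, h⟩ := h ρ hρ
      refine ⟨_, _, Pool.Agent.Y535.PEG.Pth.rev (p := fun τ => (x τ, y τ))
        ⟨cx.prodMk cy, hxy, a1, a2, a3, a4⟩, Or.inr rfl, fun τ hτ hh => h τ hτ ?_⟩
      rw [Pool.Agent.Y535.PEG.mgc_rev (L k), Pool.Agent.Y535.PEG.mgc_rev (L k),
        Pool.Agent.Y535.PEG.mgc_rev (L k), Pool.Agent.W675.Peg.DD_eq, Pool.Agent.W675.Peg.CC_eq,
        Pool.Agent.W675.Peg.CC_eq] at hh
      simp only [neg_neg] at hh
      have e1 : ∀ x y, V₁ (c k) (-Complex.I) x y = c k x + Complex.I * (c k x - c k y) :=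
        fun x y => by unfold V₁; ring
      have e2 : ∀ x y, V₂ (c k) (-Complex.I) x y = c k y + Complex.I * (c k x - c k y) :=
        fun x y => by unfold V₂; ring
      rw [e1, e1, e2]
      exact ⟨hh.2, hh.1⟩
    · right; right; right; right; left
      exact Pool.Agent.N623.PEG.fl_dd hlt hlen h1 h2
    · right; right; right; right; left
      exact Pool.Agent.N623.PEG.fl_cc hlt hlen h1 h2
    · right; right; right; right; right
      exact Pool.Agent.N623.PEG.fr_cc hlt hlen h1 h2
    · right; right; right; right; right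
      exact Pool.Agent.N623.PEG.fr_dd hlt hlen h1 h2
  refine Pool.Agent.N623.PEG.grand_false_wild hN L J (fun k h => hno ⟨k, h⟩) hn ht ht1 hσ
    (fun k i hi => ?_)
  rcases H k i hi with ⟨c1, c2, h⟩ | h
  · exact Or.inl ⟨c1, c2, ev k i hi h⟩
  · exact Or.inr h

end Pool.Agent.Results.MP_5a3ebe_gt.WildArcs
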